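import Mathlib

/-!
Problem MP_43ca77_lc, Q1: a partially ordered set (in ZFC) no cofinal subset of which has
property (R). The poset is a well-founded cofinal subset of the product of the `ω_{n+1}`, `n : ℕ`,
with the pointwise order.
-/

namespace Pool.Agent.Results.MP_43ca77_lc.Answer

open Cardinal Ordinal Set

/-- Property (R) for a subset `Q` of a partially ordered set: every maximal chain of `Q` has
finite or regular (infinite) cardinality. -/
def PropertyR {P : Type*} [PartialOrder P] (Q : Set P) : Prop :=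
  ∀ C : Set Q, IsMaxChain (· ≤ ·) C → #C < ℵ₀ ∨ (#C).IsRegular

/-- the well-order of type `ω_{n+1}` -/
abbrev X (n : ℕ) : Type := (ω_ ((n : Ordinal.{0}) + 1)).ToType

theorem mk_X (n : ℕ) : #(X n) = ℵ_ ((n : Ordinal.{0}) + 1) := by
  rw [Cardinal.mk_toType, card_omega]

theorem cof_X (n : ℕ) : Order.cof (X n) = ℵ_ ((n : Ordinal.{0}) + 1) := by
  rw [Ordinal.cof_toType, cof_omega_add_one]

instance (n : ℕ) : Nonempty (X n) := by
  rw [nonempty_toType_iff]
  exact (omega_pos _).ne'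

theorem X_bound (n : ℕ) {ι : Type} (g : ι → X n) (h : #ι ≤ ℵ_ (n : Ordinal.{0})) :
    ∃ b, ∀ i, g i < b := by
  by_contra hcon
  push Not at hcon
  have hc : IsCofinal (range g) := by
    intro x
    obtain ⟨i, hi⟩ := hcon x
    exact ⟨g i, ⟨i, rfl⟩, hi⟩
  have h1 := Order.cof_le hc
  rw [cof_X] at h1
  have h2 : #(range g) ≤ ℵ_ (n : Ordinal.{0}) := mk_range_le.trans h
  have h3 : ℵ_ (n : Ordinal.{0}) < ℵ_ ((n : Ordinal.{0}) + 1) := by
    rw [aleph_lt_aleph]
    exact lt_add_one _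
  exact absurd (h1.trans h2) (not_le.2 h3)

/-- the product -/
abbrev P0 : Type := (n : ℕ) → X n

/-- the functions which are not below any function preceding them in a fixed well-ordering -/
def W : Set P0 := {f | ∀ g, WellOrderingRel g f → ¬ f ≤ g}

theorem W_cofinal (f : P0) : ∃ g ∈ W, f ≤ g := by
  have hwf : WellFounded (WellOrderingRel : P0 → P0 → Prop) := IsWellFounded.wf
  have hne : {g | f ≤ g}.Nonempty := ⟨f, le_refl f⟩
  refine ⟨hwf.min {g | f ≤ g} hne, ?_, hwf.min_mem {g | f ≤ g} hne⟩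
  intro g hg hle
  exact hwf.not_lt_min {g | f ≤ g} ((hwf.min_mem {g | f ≤ g} hne).trans hle) hg

theorem W_rel {f g : P0} (hf : f ∈ W) (h : f < g) : WellOrderingRel f g := by
  rcases trichotomous_of (WellOrderingRel : P0 → P0 → Prop) f g with h1 | h1 | h1
  · exact h1
  · exact absurd h1 h.ne
  · exact absurd h.le (hf g h1)

theorem W_wf {C : Set P0} (hC : C ⊆ W) (s : Set P0) (hs : s ⊆ C) (hne : s.Nonempty)
    (hchain : IsChain (· ≤ ·) C) : ∃ m ∈ s, ∀ x ∈ s, m ≤ x := by
  have hwf : WellFounded (WellOrderingRel : P0 → P0 → Prop) := IsWellFounded.wf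
  refine ⟨hwf.min s hne, hwf.min_mem s hne, fun x hx => ?_⟩
  rcases hchain.total (hs (hwf.min_mem s hne)) (hs hx) with h | h
  · exact h
  · rcases h.lt_or_eq with h | h
    · exact absurd (W_rel (hC (hs hx)) h) (hwf.not_lt_min s hx)
    · exact h.ge

theorem mk_sigma_le : #(Option (Σ n, X n)) ≤ ℵ_ ω := by
  have h1 : #(Σ n, X n) ≤ ℵ_ ω := by
    rw [mk_sigma]
    refine (sum_le_mk_mul_iSup _).trans ?_
    refine mul_le_of_le (aleph0_le_aleph _) ?_ ?_
    · simp
    · refine ciSup_le' fun n => ?_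
      rw [mk_X, aleph_le_aleph]
      have := (isSuccLimit_omega0).add_one_lt (natCast_lt_omega0 n)
      exact this.le
  rw [mk_option]
  exact add_le_of_le (aleph0_le_aleph _) h1 (one_le_aleph0.trans (aleph0_le_aleph _))

/-- chains in `W` have cardinality at most `ℵ_ω` -/
theorem chain_le {C : Set P0} (hC : C ⊆ W) (hchain : IsChain (· ≤ ·) C) : #C ≤ ℵ_ ω := by
  classical
  refine le_trans ?_ mk_sigma_le
  have hsucc : ∀ f : C, (∃ g ∈ C, (f : P0) < g) →
      ∃ g ∈ C, (f : P0) < g ∧ ∀ h ∈ C, (f : P0) < h → g ≤ h := by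
    rintro f ⟨g, hg, hfg⟩
    obtain ⟨m, hm, hmin⟩ := W_wf hC {g | g ∈ C ∧ (f : P0) < g} (fun x hx => hx.1) ⟨g, hg, hfg⟩
      hchain
    exact ⟨m, hm.1, hm.2, fun h hh hfh => hmin h ⟨hh, hfh⟩⟩
  have hne0 : Nonempty P0 := ⟨fun n => Classical.arbitrary (X n)⟩
  choose! S hSC hS hSmin using hsucc
  have hn : ∀ f : C, (∃ g ∈ C, (f : P0) < g) → ∃ n, (f : P0) n < S f n := by
    intro f hf
    exact (Pi.lt_def.1 (hS f hf)).2
  choose! N hN using hn
  let F : C → Option (Σ n, X n) := fun f =>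
    if ∃ g ∈ C, (f : P0) < g then some ⟨N f, (f : P0) (N f)⟩ else none
  refine mk_le_of_injective (f := F) ?_
  have key : ∀ f g : C, (f : P0) < g → F f ≠ F g := by
    intro f g hfg hF
    have h1 : ∃ g ∈ C, (f : P0) < g := ⟨g, g.2, hfg⟩
    simp only [F, if_pos h1] at hF
    split_ifs at hF with h2
    rw [Option.some.injEq, Sigma.mk.injEq] at hF
    obtain ⟨hNeq, hval⟩ := hF
    have h3 : (f : P0) (N f) = (g : P0) (N f) := by
      rw [← hNeq] at hval
      exact eq_of_heq hval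
    have h4 := hN f h1
    have h5 := hSmin f h1 g g.2 hfg (N f)
    rw [h3] at h4
    exact absurd h4 (not_lt.2 h5)
  intro f g hfg
  by_contra hne
  have hne' : (f : P0) ≠ g := fun h => hne (Subtype.ext h)
  rcases hchain.total f.2 g.2 with h | h
  · exact key f g (lt_of_le_of_ne h hne') hfg
  · exact key g f (lt_of_le_of_ne h hne'.symm) hfg.symm

/-- the number of possible values on the coordinates `< m` is at most `ℵ_m` -/
theorem mk_low (m : ℕ) : #((n : Fin m) → X n) ≤ ℵ_ (m : Ordinal.{0}) := by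
  rw [mk_pi]
  refine (prod_le_prod _ (fun _ => ℵ_ (m : Ordinal.{0})) fun n => ?_).trans ?_
  · rw [mk_X, aleph_le_aleph]
    exact_mod_cast n.2
  · rw [prod_const, Cardinal.mk_fin, Cardinal.lift_natCast, Cardinal.lift_id, power_natCast]
    exact power_nat_le (aleph0_le_aleph _)

/-- bounded chains of size `ℵ_m` in a cofinal set -/
theorem exists_chain {Q : Set P0} (hQ : ∀ f, ∃ q ∈ Q, f ≤ q) (m : ℕ) (x : P0) :
    ∃ (D : Set P0) (y : P0), D ⊆ Q ∧ IsChain (· ≤ ·) D ∧ ℵ_ (m : Ordinal.{0}) ≤ #D ∧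
      (∀ d ∈ D, x ≤ d) ∧ ∀ d ∈ D, d ≤ y := by
  classical
  have hne0 : Nonempty P0 := ⟨x⟩
  -- a low part which is cofinal in the high coordinates
  have hlow : ∃ a : (n : Fin m) → X n, (∀ n : Fin m, x n ≤ a n) ∧
      ∀ h : P0, ∃ q ∈ Q, (∀ n : Fin m, q n = a n) ∧ ∀ n, m ≤ n → h n ≤ q n := by
    by_contra hcon
    push Not at hcon
    choose! H hH using hcon
    have hb : ∀ n, ∃ b : X n, m ≤ n → (∀ a, H a n < b) ∧ x n ≤ b := by
      intro n
      by_cases hmn : m ≤ n
      · have hle : #((n : Fin m) → X n) ≤ ℵ_ (n : Ordinal.{0}) := by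
          refine (mk_low m).trans ?_
          rw [aleph_le_aleph]
          exact_mod_cast hmn
        obtain ⟨b, hb⟩ := X_bound n (fun a => H a n) hle
        exact ⟨max b (x n), fun _ => ⟨fun a => lt_max_of_lt_left (hb a), le_max_right _ _⟩⟩
      · exact ⟨x n, fun h => absurd h hmn⟩
    choose b hb using hb
    obtain ⟨q, hqQ, hq⟩ := hQ (fun n => if m ≤ n then b n else x n)
    have hxq : ∀ n, x n ≤ q n := by
      intro n
      have := hq n
      by_cases hmn : m ≤ n
      · simp only [if_pos hmn] at this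
        exact (hb n hmn).2.trans this
      · simp only [if_neg hmn] at this
        exact this
    obtain ⟨n, hmn, hn⟩ := hH (fun n => q n) (fun n => hxq n) q hqQ (fun _ => rfl)
    have := hq n
    simp only [if_pos hmn] at this
    exact absurd (((hb n hmn).1 _).le.trans this) (not_le.2 hn)
  obtain ⟨a, hxa, ha⟩ := hlow
  -- one step of the recursion
  have hstep : ∀ s : Set P0, #s ≤ ℵ_ (m : Ordinal.{0}) → ∃ q ∈ Q, (∀ n : Fin m, q n = a n) ∧
      ∀ n, m ≤ n → (∀ f ∈ s, f n < q n) ∧ x n ≤ q n := by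
    intro s hs
    have hb : ∀ n, ∃ b : X n, m ≤ n → (∀ f ∈ s, f n < b) ∧ x n ≤ b := by
      intro n
      by_cases hmn : m ≤ n
      · have hle : #s ≤ ℵ_ (n : Ordinal.{0}) := by
          refine hs.trans ?_
          rw [aleph_le_aleph]
          exact_mod_cast hmn
        obtain ⟨b, hb⟩ := X_bound n (fun f : s => (f : P0) n) hle
        exact ⟨max b (x n), fun _ => ⟨fun f hf => lt_max_of_lt_left (hb ⟨f, hf⟩),
          le_max_right _ _⟩⟩
      · exact ⟨x n, fun h => absurd h hmn⟩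
    choose b hb using hb
    obtain ⟨q, hqQ, hqa, hq⟩ := ha b
    exact ⟨q, hqQ, hqa, fun n hmn => ⟨fun f hf => lt_of_lt_of_le ((hb n hmn).1 f hf) (hq n hmn),
      (hb n hmn).2.trans (hq n hmn)⟩⟩
  choose! F hFQ hFa hF using hstep
  let I : Type := (ω_ (m : Ordinal.{0})).ToType
  have hI : #I = ℵ_ (m : Ordinal.{0}) := by
    rw [Cardinal.mk_toType, card_omega]
  have hwf : WellFounded ((· < ·) : I → I → Prop) := wellFounded_lt
  let q : I → P0 := hwf.fix (fun i rec => F {f | ∃ (j : I) (h : j < i), rec j h = f})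
  have hq : ∀ i, q i = F {f | ∃ (j : I) (_ : j < i), q j = f} := by
    intro i
    exact hwf.fix_eq _ i
  have hcard : ∀ i, #{f | ∃ (j : I) (_ : j < i), q j = f} ≤ ℵ_ (m : Ordinal.{0}) := by
    intro i
    have : {f | ∃ (j : I) (_ : j < i), q j = f} ⊆ range q := by
      rintro f ⟨j, _, rfl⟩
      exact ⟨j, rfl⟩
    exact (mk_le_mk_of_subset this).trans (mk_range_le.trans hI.le)
  have hqQ : ∀ i, q i ∈ Q := fun i => by
    rw [hq i]
    exact hFQ _ (hcard i)
  have hqa : ∀ i (n : Fin m), q i n = a n := fun i n => by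
    rw [hq i]
    exact hFa _ (hcard i) n
  have hqx : ∀ i n, m ≤ n → x n ≤ q i n := fun i n hmn => by
    rw [hq i]
    exact (hF _ (hcard i) n hmn).2
  have hqlt : ∀ i j, j < i → ∀ n, m ≤ n → q j n < q i n := fun i j hji n hmn => by
    rw [hq i]
    exact (hF _ (hcard i) n hmn).1 (q j) ⟨j, hji, rfl⟩
  have hqle : ∀ i j, j < i → q j ≤ q i := by
    intro i j hji n
    by_cases hmn : m ≤ n
    · exact (hqlt i j hji n hmn).le
    · have h1 := hqa i ⟨n, not_le.1 hmn⟩
      have h2 := hqa j ⟨n, not_le.1 hmn⟩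
      exact (h2.trans h1.symm).le
  have hinj : Function.Injective q := by
    intro i j hij
    rcases lt_trichotomy i j with h | h | h
    · have := hqlt j i h m le_rfl
      rw [hij] at this
      exact absurd this (lt_irrefl _)
    · exact h
    · have := hqlt i j h m le_rfl
      rw [hij] at this
      exact absurd this (lt_irrefl _)
  have hbd : ∀ n, ∃ b : X n, m ≤ n → ∀ i, q i n < b := by
    intro n
    by_cases hmn : m ≤ n
    · have hle : #I ≤ ℵ_ (n : Ordinal.{0}) := by
        rw [hI, aleph_le_aleph]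
        exact_mod_cast hmn
      obtain ⟨b, hb⟩ := X_bound n (fun i => q i n) hle
      exact ⟨b, fun _ => hb⟩
    · exact ⟨x n, fun h => absurd h hmn⟩
  choose b hb using hbd
  refine ⟨range q, fun n => if h : n < m then a (Fin.mk n h) else b n, ?_, ?_, ?_, ?_, ?_⟩
  · rintro _ ⟨i, rfl⟩
    exact hqQ i
  · rintro _ ⟨i, rfl⟩ _ ⟨j, rfl⟩ hij
    rcases lt_trichotomy i j with h | h | h
    · exact Or.inl (hqle j i h)
    · exact absurd (congrArg q h) hij
    · exact Or.inr (hqle i j h)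
  · rw [mk_range_eq q hinj, hI]
  · rintro _ ⟨i, rfl⟩ n
    by_cases hmn : m ≤ n
    · exact hqx i n hmn
    · have h1 := hqa i ⟨n, not_le.1 hmn⟩
      have h2 := hxa ⟨n, not_le.1 hmn⟩
      exact h2.trans h1.symm.le
  · rintro _ ⟨i, rfl⟩ n
    by_cases hmn : n < m
    · simp only [dif_pos hmn]
      exact (hqa i ⟨n, hmn⟩).le
    · simp only [dif_neg hmn]
      exact (hb n (not_lt.1 hmn) i).le

/-- every cofinal subset of the product contains a chain of size at least `ℵ_ω` -/
theorem exists_long_chain {Q : Set P0} (hQ : ∀ f, ∃ q ∈ Q, f ≤ q) :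
    ∃ D : Set P0, D ⊆ Q ∧ IsChain (· ≤ ·) D ∧ ℵ_ ω ≤ #D := by
  choose D y hDQ hDc hDm hDx hDy using fun (m : ℕ) (x : P0) => exists_chain hQ m x
  -- the points between consecutive blocks
  let z : ℕ → P0 := fun m => Nat.rec (fun n => Classical.arbitrary (X n)) (fun m f => y m f) m
  have hz : ∀ m, z (m + 1) = y m (z m) := fun m => rfl
  have hzmono : Monotone z := by
    refine monotone_nat_of_le_succ fun m => ?_
    have hne : (D m (z m)).Nonempty := by
      rw [← Set.nonempty_coe_sort, ← mk_ne_zero_iff]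
      exact ((aleph_pos _).trans_le (hDm m (z m))).ne'
    obtain ⟨d, hd⟩ := hne
    rw [hz]
    exact (hDx m (z m) d hd).trans (hDy m (z m) d hd)
  refine ⟨⋃ m, D m (z m), iUnion_subset fun m => hDQ m (z m), ?_, ?_⟩
  · have key : ∀ m k, m < k → ∀ f ∈ D m (z m), ∀ g ∈ D k (z k), f ≤ g := by
      intro m k hmk f hf g hg
      have h1 := hDy m (z m) f hf
      rw [← hz] at h1
      exact h1.trans ((hzmono hmk).trans (hDx k (z k) g hg))
    intro f hf g hg hfg
    rw [mem_iUnion] at hf hg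
    obtain ⟨m, hm⟩ := hf
    obtain ⟨k, hk⟩ := hg
    rcases lt_trichotomy m k with h | h | h
    · exact Or.inl (key m k h f hm g hk)
    · subst h
      exact hDc m (z m) hm hk hfg
    · exact Or.inr (key k m h g hk f hm)
  · rw [aleph_limit isSuccLimit_omega0]
    refine ciSup_le' fun o => ?_
    obtain ⟨m, hm⟩ := lt_omega0.1 o.2
    rw [hm]
    exact (hDm m (z m)).trans (mk_le_mk_of_subset (subset_iUnion (fun m => D m (z m)) m))

/-- There is a partially ordered set `P` such that every cofinal subset `Q` of `P` has a maximal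
chain of cardinality exactly `ℵ_ω`; hence no cofinal subset of `P` has property (R). -/
theorem result : ∃ (P : Type) (_ : PartialOrder P), ∀ Q : Set P, IsCofinal Q →
    (∃ C : Set Q, IsMaxChain (· ≤ ·) C ∧ #C = ℵ_ ω) ∧ ¬ PropertyR Q := by
  refine ⟨W, inferInstance, ?_⟩
  intro Q hQ
  have hmain : ∃ C : Set Q, IsMaxChain (· ≤ ·) C ∧ #C = ℵ_ ω := by
    -- the image of `Q` in the product
    let Q' : Set P0 := (fun f : W => (f : P0)) '' Q
    have hQ' : ∀ f, ∃ q ∈ Q', f ≤ q := by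
      intro f
      obtain ⟨g, hg, hfg⟩ := W_cofinal f
      obtain ⟨q, hq, hgq⟩ := hQ ⟨g, hg⟩
      exact ⟨q, ⟨q, hq, rfl⟩, hfg.trans hgq⟩
    obtain ⟨D, hDQ, hDc, hDm⟩ := exists_long_chain hQ'
    let ι : Q → P0 := fun q => ((q : W) : P0)
    have hι : Function.Injective ι := fun a b h => Subtype.ext (Subtype.ext h)
    have hD : ι '' (ι ⁻¹' D) = D := by
      rw [image_preimage_eq_iff]
      intro f hf
      obtain ⟨q, hq, rfl⟩ := hDQ hf
      exact ⟨⟨q, hq⟩, rfl⟩
    have hchain : IsChain (· ≤ ·) (ι ⁻¹' D) := by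
      intro a ha b hb hab
      exact hDc ha hb (fun h => hab (hι h))
    obtain ⟨C, hC, hDC⟩ := hchain.exists_maxChain
    refine ⟨C, hC, le_antisymm ?_ ?_⟩
    · have h1 : #(ι '' C) ≤ ℵ_ ω := by
        refine chain_le ?_ ?_
        · rintro _ ⟨q, _, rfl⟩
          exact (q : W).2
        · rintro _ ⟨a, ha, rfl⟩ _ ⟨b, hb, rfl⟩ hab
          exact hC.isChain ha hb (fun h => hab (congrArg ι h))
      rwa [mk_image_eq hι] at h1
    · have h1 : #(ι ⁻¹' D) = #D := by
        rw [← mk_image_eq (s := ι ⁻¹' D) hι, hD]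
      exact hDm.trans (h1.symm.le.trans (mk_le_mk_of_subset hDC))
  refine ⟨hmain, ?_⟩
  obtain ⟨C, hC, hcard⟩ := hmain
  intro hR
  have hsing : (ℵ_ ω).IsSingular := by
    rw [isSingular_aleph_iff]
    refine ⟨isSuccLimit_omega0, ?_⟩
    rw [cof_omega0, ← aleph_zero, aleph_lt_aleph]
    exact omega0_pos
  rcases hR C hC with h | h
  · rw [hcard] at h
    exact absurd h (not_lt.2 (aleph0_le_aleph _))
  · rw [hcard] at h
    exact hsing.not_isRegular h

end Pool.Agent.Results.MP_43ca77_lc.Answer
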